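import Mathlib
import Pool.Graph.R_seed8.Helper877.QI.Statement
import Pool.Graph.R_seed8.Helper877.QI.Main

/-!
# MP_8d185c_al: bases of quasi-identities relative to every quasivariety of torsion-free groups

Let `G` be a free nilpotent group of class 3 and rank at least 2.  The library theorem says that `G`
has no independent basis of quasi-identities relative to the class of all torsion-free groups.
Here the class of torsion-free groups is replaced by an arbitrary quasivariety of torsion-free groups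
which contains `G`, the quasivarieties with independent bases are determined, and it is shown that
in every basis all finite subsets outside some finite set can be omitted.
-/

set_option autoImplicit false

open Pool.Agent.Helper877.QI

universe u v

namespace Pool.Agent.Results.MP_8d185c_al.EveryQuasivariety

/-- The commutator `[a, b] = a b a⁻¹ b⁻¹` of two group words. -/
def com (a b : FreeGroup ℕ) : FreeGroup ℕ := a * b * a⁻¹ * b⁻¹

/-- The law of class 3: `[x₀, [x₁, [x₂, x₃]]] = 1`. -/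
def law3 : QuasiId :=
  ⟨[], (com (FreeGroup.of 0) (com (FreeGroup.of 1) (com (FreeGroup.of 2) (FreeGroup.of 3))), 1)⟩

/-- `S` is a basis of quasi-identities of `G` relative to the class of the torsion-free groups which
satisfy all quasi-identities in `Γ`: all members of `S` are true in `G`, and a group `H` in the
class satisfies all members of `S` if and only if it satisfies all quasi-identities true in `G`. -/
def IsBasisIn (Γ : Set QuasiId) (G : Type u) [Group G] (S : Set QuasiId) : Prop :=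
  (∀ σ ∈ S, σ.Holds G) ∧
    ∀ (H : Type v) [Group H], TorsionFree H → (∀ γ ∈ Γ, γ.Holds H) →
      ((∀ σ ∈ S, σ.Holds H) ↔ ∀ τ : QuasiId, τ.Holds G → τ.Holds H)

/-- `S` is an independent basis: a basis without redundant members. -/
def IsIndependentBasisIn (Γ : Set QuasiId) (G : Type u) [Group G] (S : Set QuasiId) : Prop :=
  IsBasisIn.{u, v} Γ G S ∧ ∀ σ ∈ S, ¬ IsBasisIn.{u, v} Γ G (S \ {σ})

/-- The free group of rank `ι` in the variety of nilpotent groups of class at most 3. -/
abbrev N3 (ι : Type u) : Type u := FreeGroup ι ⧸ (⊤ : Subgroup (FreeGroup ι)).lowerCentralSeries 3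

lemma law3_holds_iff (H : Type*) [Group H] :
    law3.Holds H ↔ ∀ a b c d : H, cm a (cm b (cm c d)) = 1 := by
  rw [← lawq_holds_iff]
  rfl

lemma law3_N3 (ι : Type u) : law3.Holds (N3 ι) :=
  (law3_holds_iff _).mpr ((lawq_holds_iff _).mp (lawq_N3 ι))

instance : Countable (FreeGroup ℕ) := (FreeGroup.toWord_injective (α := ℕ)).countable

instance : Countable QuasiId := by
  have h : Function.Injective (fun σ : QuasiId => (σ.hyps, σ.concl)) := by
    rintro ⟨a, b⟩ ⟨c, d⟩ h
    simp only [Prod.mk.injEq] at h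
    rw [h.1, h.2]
  exact h.countable

/-- Finitely many members of a basis can be omitted for groups of class 3. -/
theorem removable (ι : Type u) [Nontrivial ι] (Γ S F : Set QuasiId)
    (hΓ : ∀ γ ∈ Γ, γ.Holds (N3 ι)) (hS : IsBasisIn.{u, v} Γ (N3 ι) S) (hF : F.Finite)
    (A : Type v) [Group A] (htf : TorsionFree A) (hΓA : ∀ γ ∈ Γ, γ.Holds A)
    (hlaw : law3.Holds A) (hA : ∀ τ ∈ S \ F, τ.Holds A) (hFS : F ⊆ S) :
    ∀ σ ∈ F, σ.Holds A := by
  intro σ hσ
  choose d hd using fun σ : QuasiId => exists_vars_le.{v} σ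
  obtain ⟨D, hD⟩ : ∃ D : ℕ, ∀ σ ∈ F, d σ ≤ D := by
    obtain ⟨D, hD⟩ := (hF.image d).bddAbove
    exact ⟨D, fun σ hσ => hD ⟨σ, hσ, rfl⟩⟩
  apply hd σ D (hD σ hσ) A
  intro b
  by_contra hne
  set A0 := Subgroup.closure (Set.range b) with hA0
  have hfg : Group.FG A0 := Group.closure_finite_fg (Set.range b)
  have hsub : ∀ {τ : QuasiId}, τ.Holds A → τ.Holds A0 := fun h =>
    h.of_injective A0.subtype A0.subtype_injective
  have htf0 : TorsionFree A0 := by
    rw [torsionFree_iff] at htf ⊢
    intro n hn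
    exact hsub (htf n hn)
  have hσG : σ ∈ Th (N3 ι) := hS.1 σ (hFS hσ)
  have hnK : ¬ Sat (Th (N3 ι)) A0 := fun h => hne (h σ hσG)
  obtain ⟨C, _, hC1, hC2, hC3⟩ := key_lemma (G := N3 ι) (sep_N3 ι) (sat_T ι) (Th A0 ∩ Th (N3 ι))
    (fun τ hτ => sat_T ι τ hτ.2) A0 htf0 ((law3_holds_iff A0).mp (hsub hlaw))
    (fun τ hτ => hτ.1) hnK D
  apply hC2
  have hCtf : TorsionFree C := by
    rw [torsionFree_iff]
    intro n hn
    exact hC1 (tfq n) ⟨(torsionFree_iff _).mp htf0 n hn, tfq_N3 ι n hn⟩
  have hCΓ : ∀ γ ∈ Γ, γ.Holds C := fun γ hγ => hC1 γ ⟨hsub (hΓA γ hγ), hΓ γ hγ⟩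
  have hCS : ∀ τ ∈ S, τ.Holds C := by
    intro τ hτ
    by_cases h : τ ∈ F
    · apply hd τ D (hD τ h) C
      intro c
      exact hC3 c τ (hS.1 τ hτ)
    · exact hC1 τ ⟨hsub (hA τ ⟨hτ, h⟩), hS.1 τ hτ⟩
  intro τ hτ
  exact ((hS.2 C hCtf hCΓ).mp hCS) τ hτ

/-- If `S \ F` is not a basis, this is witnessed by a group which violates the law. -/
theorem exists_witness (ι : Type u) [Nontrivial ι] (Γ S F : Set QuasiId)
    (hΓ : ∀ γ ∈ Γ, γ.Holds (N3 ι)) (hS : IsBasisIn.{u, v} Γ (N3 ι) S) (hF : F.Finite)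
    (hFS : F ⊆ S) (hne : ¬ IsBasisIn.{u, v} Γ (N3 ι) (S \ F)) :
    ∃ (A : Type v) (_ : Group A), TorsionFree A ∧ (∀ γ ∈ Γ, γ.Holds A) ∧
      (∀ τ ∈ S \ F, τ.Holds A) ∧ ¬ law3.Holds A := by
  by_contra hcon
  apply hne
  refine ⟨fun τ hτ => hS.1 τ hτ.1, ?_⟩
  intro H _ hH hHΓ
  constructor
  · intro h
    apply (hS.2 H hH hHΓ).mp
    have hlaw : law3.Holds H := by
      by_contra hl
      exact hcon ⟨H, inferInstance, hH, hHΓ, h, hl⟩
    intro τ hτ
    by_cases hts : τ ∈ F
    · exact removable ι Γ S F hΓ hS hF H hH hHΓ hlaw h hFS τ hts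
    · exact h τ ⟨hτ, hts⟩
  · intro h τ hτ
    exact h τ (hS.1 τ hτ.1)

/-- An independent basis is finite. -/
theorem finite_of_independent (ι : Type u) [Nontrivial ι] (Γ S : Set QuasiId)
    (hΓ : ∀ γ ∈ Γ, γ.Holds (N3 ι)) (hS : IsIndependentBasisIn.{u, v} Γ (N3 ι) S) : S.Finite := by
  by_contra hinf
  have : Infinite S := Set.infinite_coe_iff.mpr hinf
  choose A hA1 hA2 hA5 hA3 hA4 using fun σ : S => exists_witness.{u, v} ι Γ S {σ.1} hΓ hS.1
    (Set.finite_singleton _) (Set.singleton_subset_iff.2 σ.2) (hS.2 σ σ.2)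
  have hne : ¬ law3.Holds (RP A) := RP.not_holds A law3 hA4
  apply hne
  refine (hS.1.2 (RP A) ?_ ?_).mp ?_ law3 (law3_N3 ι)
  · rw [torsionFree_iff]
    intro n hn
    apply RP.holds
    convert Set.finite_empty
    ext σ
    simp only [Set.mem_ofPred_eq, Set.mem_empty_iff_false, iff_false, not_not]
    exact (torsionFree_iff _).mp (hA2 σ) n hn
  · intro γ hγ
    apply RP.holds
    convert Set.finite_empty
    ext σ
    simp only [Set.mem_ofPred_eq, Set.mem_empty_iff_false, iff_false, not_not]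
    exact hA5 σ γ hγ
  · intro τ hτ
    apply RP.holds
    refine (Set.finite_singleton (⟨τ, hτ⟩ : S)).subset ?_
    intro σ hσ
    by_contra hne'
    apply hσ
    refine hA3 σ τ ⟨hτ, ?_⟩
    intro h
    apply hne'
    rw [Set.mem_singleton_iff]
    rw [Set.mem_singleton_iff] at h
    exact Subtype.ext h.symm

/-- Compactness: finitely many members of a basis imply the law of class 3. -/
theorem finite_law (ι : Type u) (Γ S : Set QuasiId) (hS : IsBasisIn.{u, v} Γ (N3 ι) S) :
    ∃ J : Set QuasiId, J ⊆ S ∧ J.Finite ∧ ∀ (H : Type v) [Group H], TorsionFree H →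
      (∀ γ ∈ Γ, γ.Holds H) → (∀ τ ∈ J, τ.Holds H) → law3.Holds H := by
  obtain ⟨enc, henc⟩ := Countable.exists_injective_nat QuasiId
  by_contra hcon
  have hJ : ∀ n : ℕ, ∃ (A : Type v) (_ : Group A), TorsionFree A ∧ (∀ γ ∈ Γ, γ.Holds A) ∧
      (∀ τ ∈ {τ ∈ S | enc τ < n}, τ.Holds A) ∧ ¬ law3.Holds A := by
    intro n
    by_contra h
    apply hcon
    refine ⟨{τ ∈ S | enc τ < n}, fun τ hτ => hτ.1, ?_, ?_⟩
    · refine Set.Finite.subset ((Set.finite_lt_nat n).preimage henc.injOn) ?_
      intro τ hτ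
      exact hτ.2
    · intro H _ h1 h2 h3
      by_contra h4
      exact h ⟨H, inferInstance, h1, h2, h3, h4⟩
  choose A hA1 hA2 hA5 hA3 hA4 using hJ
  have hne : ¬ law3.Holds (RP A) := RP.not_holds A law3 hA4
  apply hne
  refine (hS.2 (RP A) ?_ ?_).mp ?_ law3 (law3_N3 ι)
  · rw [torsionFree_iff]
    intro n hn
    apply RP.holds
    convert Set.finite_empty
    ext σ
    simp only [Set.mem_ofPred_eq, Set.mem_empty_iff_false, iff_false, not_not]
    exact (torsionFree_iff _).mp (hA2 σ) n hn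
  · intro γ hγ
    apply RP.holds
    convert Set.finite_empty
    ext σ
    simp only [Set.mem_ofPred_eq, Set.mem_empty_iff_false, iff_false, not_not]
    exact hA5 σ γ hγ
  · intro τ hτ
    apply RP.holds
    refine (Set.finite_le_nat (enc τ)).subset ?_
    intro n hn
    by_contra hne'
    apply hn
    exact hA3 n τ ⟨hτ, not_le.1 hne'⟩

/-- Let `ι` have at least two elements (finite or infinite), let `G = N3 ι` be the free nilpotent
group of class 3 and rank `ι`, let `Γ` be any set of quasi-identities which are true in `G`, and let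
`R` be the class of all torsion-free groups which satisfy `Γ` (every quasivariety of torsion-free
groups containing `G` is of this form).

(1) The following are equivalent: `G` has an independent basis of quasi-identities relative to `R`;
`G` has a finite basis relative to `R`; the law of class 3 alone is a basis of `G` relative to `R`;
all groups of class at most 3 in `R` satisfy all quasi-identities of `G`.

(2) If `Γ` is finite, then `G` has no independent basis relative to `R` (for `Γ = ∅` this is Q1).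

(3) For every basis `S` of `G` relative to `R` there is a finite `J ⊆ S` such that `S \ F` is a basis
for all finite `F ⊆ S \ J`; and if `Γ` contains the law of class 3, one can take `J = ∅`. -/
theorem result (ι : Type u) [Nontrivial ι] (Γ : Set QuasiId) (hΓ : ∀ γ ∈ Γ, γ.Holds (N3 ι)) :
    (List.TFAE [∃ S : Set QuasiId, IsIndependentBasisIn.{u, v} Γ (N3 ι) S,
      ∃ S : Set QuasiId, S.Finite ∧ IsBasisIn.{u, v} Γ (N3 ι) S,
      IsBasisIn.{u, v} Γ (N3 ι) {law3},
      ∀ (A : Type v) [Group A], TorsionFree A → (∀ γ ∈ Γ, γ.Holds A) → law3.Holds A →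
        ∀ τ : QuasiId, τ.Holds (N3 ι) → τ.Holds A]) ∧
    (Γ.Finite → ¬ ∃ S : Set QuasiId, IsIndependentBasisIn.{u, v} Γ (N3 ι) S) ∧
    (∀ S : Set QuasiId, IsBasisIn.{u, v} Γ (N3 ι) S →
      ∃ J : Set QuasiId, J ⊆ S ∧ J.Finite ∧ (law3 ∈ Γ → J = ∅) ∧
        ∀ F : Set QuasiId, F ⊆ S \ J → F.Finite → IsBasisIn.{u, v} Γ (N3 ι) (S \ F)) := by
  have hTFAE : List.TFAE [∃ S : Set QuasiId, IsIndependentBasisIn.{u, v} Γ (N3 ι) S,
      ∃ S : Set QuasiId, S.Finite ∧ IsBasisIn.{u, v} Γ (N3 ι) S,
      IsBasisIn.{u, v} Γ (N3 ι) {law3},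
      ∀ (A : Type v) [Group A], TorsionFree A → (∀ γ ∈ Γ, γ.Holds A) → law3.Holds A →
        ∀ τ : QuasiId, τ.Holds (N3 ι) → τ.Holds A] := by
    tfae_have 1 → 2 := by
      rintro ⟨S, hS⟩
      exact ⟨S, finite_of_independent ι Γ S hΓ hS, hS.1⟩
    tfae_have 2 → 4 := by
      rintro ⟨S, hfin, hS⟩ A _ htf hA hlaw
      refine (hS.2 A htf hA).mp ?_
      exact removable ι Γ S S hΓ hS hfin A htf hA hlaw (fun τ hτ => absurd hτ.1 hτ.2)
        (Set.Subset.refl S)
    tfae_have 4 → 3 := by
      intro h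
      refine ⟨fun σ hσ => ?_, ?_⟩
      · rw [Set.mem_singleton_iff] at hσ
        subst hσ
        exact law3_N3 ι
      · intro H _ hH hHΓ
        constructor
        · intro hl
          exact h H hH hHΓ (hl law3 rfl)
        · intro hl σ hσ
          rw [Set.mem_singleton_iff] at hσ
          subst hσ
          exact hl _ (law3_N3 ι)
    tfae_have 3 → 1 := by
      intro h
      by_cases h0 : IsBasisIn.{u, v} Γ (N3 ι) ∅
      · exact ⟨∅, h0, fun σ hσ => absurd hσ (Set.notMem_empty σ)⟩
      · refine ⟨{law3}, h, ?_⟩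
        intro σ hσ
        rw [Set.mem_singleton_iff] at hσ
        subst hσ
        rwa [Set.sdiff_self]
    tfae_finish
  refine ⟨hTFAE, ?_, ?_⟩
  · intro hfin h1
    have h3 := (hTFAE.out 0 2).mp h1
    refine no_finite_basis.{u, v} ι (Γ ∪ {law3}) (hfin.union (Set.finite_singleton _)) ⟨?_, ?_⟩
    · rintro σ (hσ | hσ)
      · exact hΓ σ hσ
      · rw [Set.mem_singleton_iff] at hσ
        subst hσ
        exact law3_N3 ι
    · intro H _ hH
      constructor
      · intro h
        refine (h3.2 H hH (fun γ hγ => h γ (Or.inl hγ))).mp ?_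
        intro σ hσ
        exact h σ (Or.inr hσ)
      · rintro h σ (hσ | hσ)
        · exact h σ (hΓ σ hσ)
        · rw [Set.mem_singleton_iff] at hσ
          subst hσ
          exact h _ (law3_N3 ι)
  · intro S hS
    by_cases hl : law3 ∈ Γ
    · refine ⟨∅, Set.empty_subset S, Set.finite_empty, fun _ => rfl, ?_⟩
      intro F hF hFfin
      by_contra hne
      obtain ⟨A, _, _, h2, _, h4⟩ := exists_witness ι Γ S F hΓ hS hFfin
        (fun τ hτ => (hF hτ).1) hne
      exact h4 (h2 law3 hl)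
    · obtain ⟨J, hJS, hJfin, hJ⟩ := finite_law ι Γ S hS
      refine ⟨J, hJS, hJfin, fun h => absurd h hl, ?_⟩
      intro F hF hFfin
      by_contra hne
      obtain ⟨A, _, h1, h2, h3, h4⟩ := exists_witness ι Γ S F hΓ hS hFfin
        (fun τ hτ => (hF hτ).1) hne
      exact h4 (hJ A h1 h2 (fun τ hτ => h3 τ ⟨hJS hτ, fun h => (hF h).2 hτ⟩))

end Pool.Agent.Results.MP_8d185c_al.EveryQuasivariety
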